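import Pool.Agent.Y564.PA.Defs

set_option autoImplicit false

namespace Pool.Agent.Y564.PA

/-- Terms over a type of variables. -/
inductive Term (ι : Type) : Type
  | var (i : ι)
  | union (s t : Term ι)
  | inter (s t : Term ι)
  | compl (s : Term ι)
  | p1 (s : Term ι)
  | p2 (s : Term ι)
  | tens (s t : Term ι)

open Term

/-- Evaluation of a term. The product is applied to the projections of the two arguments. -/
def eval {ι : Type} (S : ι → Set Plane) : Term ι → Set Plane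
  | var i => S i
  | .union s t => eval S s ∪ eval S t
  | .inter s t => eval S s ∩ eval S t
  | .compl s => (eval S s)ᶜ
  | p1 s => proj1 (eval S s)
  | p2 s => proj2 (eval S s)
  | .tens s t => Pool.Agent.Y564.PA.tens (proj1 (eval S s)) (proj2 (eval S t))

theorem proj1_sub (S : Set Plane) : proj1 S ⊆ axisX := fun _ h => h.1

theorem proj2_sub (S : Set Plane) : proj2 S ⊆ axisY := fun _ h => h.1

theorem proj1_eq {A : Set Plane} (h : A ⊆ axisX) : proj1 A = A := by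
  ext ⟨x, y⟩
  constructor
  · rintro ⟨h1, y', h2⟩
    have h3 : y' = 0 := h h2
    have h1' : y = 0 := h1
    subst h1' h3
    exact h2
  · intro h1
    have h2 : y = 0 := h h1
    exact ⟨h2, y, h1⟩

theorem proj2_eq {A : Set Plane} (h : A ⊆ axisY) : proj2 A = A := by
  ext ⟨x, y⟩
  constructor
  · rintro ⟨h1, x', h2⟩
    have h3 : x' = 0 := h h2
    have h1' : x = 0 := h1
    subst h1' h3
    exact h2
  · intro h1
    have h2 : x = 0 := h h1
    exact ⟨h2, x, h1⟩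

theorem gen_isProjAlg {𝒮 : Set (Set Plane)} (h : 𝒮.Nonempty) : IsProjAlg (gen 𝒮) where
  nonempty := by
    obtain ⟨S, hS⟩ := h
    exact ⟨S, fun F hF => hF.2 hS⟩
  union S hS T hT := fun F hF => hF.1.union S (hS F hF) T (hT F hF)
  inter S hS T hT := fun F hF => hF.1.inter S (hS F hF) T (hT F hF)
  compl S hS := fun F hF => hF.1.compl S (hS F hF)
  proj1 S hS := fun F hF => hF.1.proj1 S (hS F hF)
  proj2 S hS := fun F hF => hF.1.proj2 S (hS F hF)
  tens A hA B hB h1 h2 := fun F hF => hF.1.tens A (hA F hF) B (hB F hF) h1 h2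

theorem subset_gen (𝒮 : Set (Set Plane)) : 𝒮 ⊆ gen 𝒮 := fun _ hS _ hF => hF.2 hS

theorem eval_mem {ι : Type} {F : Set (Set Plane)} (hF : IsProjAlg F) {S : ι → Set Plane}
    (hS : ∀ i, S i ∈ F) (t : Term ι) : eval S t ∈ F := by
  induction t with
  | var i => exact hS i
  | union s t ihs iht => exact hF.union _ ihs _ iht
  | inter s t ihs iht => exact hF.inter _ ihs _ iht
  | compl s ih => exact hF.compl _ ih
  | p1 s ih => exact hF.proj1 _ ih
  | p2 s ih => exact hF.proj2 _ ih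
  | tens s t ihs iht =>
    exact hF.tens _ (hF.proj1 _ ihs) _ (hF.proj2 _ iht) (proj1_sub _) (proj2_sub _)

theorem range_isProjAlg {ι : Type} [Nonempty ι] (S : ι → Set Plane) :
    IsProjAlg (Set.range (eval S)) where
  nonempty := ⟨_, ⟨var (Classical.arbitrary ι), rfl⟩⟩
  union := by
    rintro _ ⟨s, rfl⟩ _ ⟨t, rfl⟩
    exact ⟨.union s t, rfl⟩
  inter := by
    rintro _ ⟨s, rfl⟩ _ ⟨t, rfl⟩
    exact ⟨.inter s t, rfl⟩
  compl := by
    rintro _ ⟨s, rfl⟩
    exact ⟨.compl s, rfl⟩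
  proj1 := by
    rintro _ ⟨s, rfl⟩
    exact ⟨.p1 s, rfl⟩
  proj2 := by
    rintro _ ⟨s, rfl⟩
    exact ⟨.p2 s, rfl⟩
  tens := by
    rintro _ ⟨s, rfl⟩ _ ⟨t, rfl⟩ h1 h2
    refine ⟨.tens s t, ?_⟩
    change tens (proj1 _) (proj2 _) = _
    rw [proj1_eq h1, proj2_eq h2]

theorem gen_eq {ι : Type} [Nonempty ι] (S : ι → Set Plane) :
    gen (Set.range S) = Set.range (eval S) := by
  apply Set.Subset.antisymm
  · apply Set.sInter_subset_of_mem
    refine ⟨range_isProjAlg S, ?_⟩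
    rintro _ ⟨i, rfl⟩
    exact ⟨var i, rfl⟩
  · rintro _ ⟨t, rfl⟩
    exact eval_mem (gen_isProjAlg (Set.range_nonempty S)) (fun i => subset_gen _ ⟨i, rfl⟩) t

deriving instance Countable for Term

/-- An isomorphism commutes with the evaluation of terms. -/
theorem iso_eval {ι : Type} {F : Set (Set Plane)} (hF : IsProjAlg F)
    {φ : Set Plane → Set Plane}
    (h : (∀ S ∈ F, ∀ T ∈ F, φ (S ∪ T) = φ S ∪ φ T) ∧
    (∀ S ∈ F, ∀ T ∈ F, φ (S ∩ T) = φ S ∩ φ T) ∧
    (∀ S ∈ F, φ Sᶜ = (φ S)ᶜ) ∧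
    (∀ S ∈ F, φ (proj1 S) = proj1 (φ S)) ∧
    (∀ S ∈ F, φ (proj2 S) = proj2 (φ S)) ∧
    (∀ A ∈ F, ∀ B ∈ F, A ⊆ axisX → B ⊆ axisY → φ (tens A B) = tens (φ A) (φ B)))
    {S : ι → Set Plane} (hS : ∀ i, S i ∈ F) (t : Term ι) :
    φ (eval S t) = eval (fun i => φ (S i)) t := by
  obtain ⟨h1, h2, h3, h4, h5, h6⟩ := h
  induction t with
  | var i => rfl
  | union s t ihs iht =>
    change φ (_ ∪ _) = _ ∪ _
    rw [h1 _ (eval_mem hF hS s) _ (eval_mem hF hS t), ihs, iht]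
  | inter s t ihs iht =>
    change φ (_ ∩ _) = _ ∩ _
    rw [h2 _ (eval_mem hF hS s) _ (eval_mem hF hS t), ihs, iht]
  | compl s ih =>
    change φ (_)ᶜ = (_)ᶜ
    rw [h3 _ (eval_mem hF hS s), ih]
  | p1 s ih =>
    change φ (proj1 _) = proj1 _
    rw [h4 _ (eval_mem hF hS s), ih]
  | p2 s ih =>
    change φ (proj2 _) = proj2 _
    rw [h5 _ (eval_mem hF hS s), ih]
  | tens s t ihs iht =>
    change φ (tens (proj1 _) (proj2 _)) = tens (proj1 _) (proj2 _)
    rw [h6 _ (hF.proj1 _ (eval_mem hF hS s)) _ (hF.proj2 _ (eval_mem hF hS t)) (proj1_sub _)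
      (proj2_sub _), h4 _ (eval_mem hF hS s), h5 _ (eval_mem hF hS t), ihs, iht]

theorem iso_empty {F : Set (Set Plane)} (hF : IsProjAlg F) {φ : Set Plane → Set Plane}
    (h2 : ∀ S ∈ F, ∀ T ∈ F, φ (S ∩ T) = φ S ∩ φ T) (h3 : ∀ S ∈ F, φ Sᶜ = (φ S)ᶜ) :
    φ ∅ = ∅ := by
  obtain ⟨S, hS⟩ := hF.nonempty
  have h := h2 S hS Sᶜ (hF.compl S hS)
  rw [h3 S hS, Set.inter_compl_self, Set.inter_compl_self] at h
  exact h

theorem empty_mem {F : Set (Set Plane)} (hF : IsProjAlg F) : ∅ ∈ F := by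
  obtain ⟨S, hS⟩ := hF.nonempty
  have h := hF.inter S hS Sᶜ (hF.compl S hS)
  rwa [Set.inter_compl_self] at h

/-! ### The one-generated algebras -/

/-- The generator attached to a set of natural numbers. -/
def gset (W : Set ℕ) : Set Plane :=
  {p : Plane | (∃ m n : ℕ, 1 ≤ m ∧ m ≤ n ∧ p.1 = m ∧ p.2 = n) ∨ (∃ m : ℕ, m ∈ W ∧ p.1 = m + 1 ∧ p.2 = 0)}

/-- whole plane -/
def tfull : Term Unit := .union (var ()) (.compl (var ()))

/-- the generator without the axes -/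
def tR : Term Unit := .inter (var ()) (.compl (.union (.p1 tfull) (.p2 tfull)))

/-- the terms for the final segments on the two axes -/
def tAB : ℕ → Term Unit × Term Unit
  | 0 => (.p1 tR, .p2 tR)
  | n + 1 =>
    let A := Term.p1 (.inter (.tens (tAB n).1 (tAB n).2) (.compl tR))
    (A, .p2 (.inter (.tens A (tAB n).2) tR))

/-- the terms which detect the members of the set -/
def tD (n : ℕ) : Term Unit :=
  .inter (.inter (tAB n).1 (.compl (tAB (n + 1)).1)) (var ())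

/-- constant family -/
abbrev cf (S : Set Plane) : Unit → Set Plane := fun _ => S

theorem eval_full (S : Set Plane) : eval (cf S) tfull = Set.univ := by
  change S ∪ Sᶜ = Set.univ
  exact Set.union_compl_self S

theorem eval_R (W : Set ℕ) : eval (cf (gset W)) tR =
    {p : Plane | ∃ m n : ℕ, 1 ≤ m ∧ m ≤ n ∧ p.1 = m ∧ p.2 = n} := by
  have h : eval (cf (gset W)) tR = gset W ∩ (proj1 (eval (cf (gset W)) tfull) ∪
    proj2 (eval (cf (gset W)) tfull))ᶜ := rfl
  rw [h, eval_full]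
  ext ⟨x, y⟩
  simp only [gset, proj1, proj2, Set.mem_inter_iff, Set.mem_ofPred_eq, Set.mem_compl_iff,
    Set.mem_union, Set.mem_univ, exists_const, and_true, not_or]
  constructor
  · rintro ⟨h | h, h1, h2⟩
    · exact h
    · obtain ⟨m, -, -, h3⟩ := h
      exact absurd h3 h1
  · rintro ⟨m, n, h1, h2, h3, h4⟩
    refine ⟨Or.inl ⟨m, n, h1, h2, h3, h4⟩, ?_, ?_⟩
    · rw [h4]
      exact_mod_cast (by omega : n ≠ 0)
    · rw [h3]
      exact_mod_cast (by omega : m ≠ 0)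

theorem pA (n : ℕ) : proj1 {p : Plane | p.2 = 0 ∧ ∃ m : ℕ, n < m ∧ p.1 = m} =
    {p : Plane | p.2 = 0 ∧ ∃ m : ℕ, n < m ∧ p.1 = m} := proj1_eq (fun _ hp => hp.1)

theorem pB (n : ℕ) : proj2 {p : Plane | p.1 = 0 ∧ ∃ m : ℕ, n < m ∧ p.2 = m} =
    {p : Plane | p.1 = 0 ∧ ∃ m : ℕ, n < m ∧ p.2 = m} := proj2_eq (fun _ hp => hp.1)

theorem eval_AB (W : Set ℕ) (n : ℕ) :
    eval (cf (gset W)) (tAB n).1 = {p : Plane | p.2 = 0 ∧ ∃ m : ℕ, n < m ∧ p.1 = m} ∧
    eval (cf (gset W)) (tAB n).2 = {p : Plane | p.1 = 0 ∧ ∃ m : ℕ, n < m ∧ p.2 = m} := by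
  induction n with
  | zero =>
    constructor
    · change proj1 (eval (cf (gset W)) tR) = _
      rw [eval_R]
      ext ⟨x, y⟩
      simp only [proj1, Set.mem_ofPred_eq]
      constructor
      · rintro ⟨h, y', m, n, h1, h2, h3, h4⟩
        exact ⟨h, m, h1, h3⟩
      · rintro ⟨h, m, h1, h3⟩
        exact ⟨h, m, m, m, h1, le_rfl, h3, rfl⟩
    · change proj2 (eval (cf (gset W)) tR) = _
      rw [eval_R]
      ext ⟨x, y⟩
      simp only [proj2, Set.mem_ofPred_eq]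
      constructor
      · rintro ⟨h, y', m, n, h1, h2, h3, h4⟩
        exact ⟨h, n, by omega, h4⟩
      · rintro ⟨h, m, h1, h3⟩
        exact ⟨h, m, m, m, h1, le_rfl, rfl, h3⟩
  | succ n ih =>
    obtain ⟨ihA, ihB⟩ := ih
    have hA : eval (cf (gset W)) (tAB (n + 1)).1 =
        {p : Plane | p.2 = 0 ∧ ∃ m : ℕ, n + 1 < m ∧ p.1 = m} := by
      have h : eval (cf (gset W)) (tAB (n + 1)).1 =
        proj1 (tens (proj1 (eval (cf (gset W)) (tAB n).1)) (proj2 (eval (cf (gset W)) (tAB n).2)) ∩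
          (eval (cf (gset W)) tR)ᶜ) := rfl
      rw [h, ihA, ihB, eval_R, pA n, pB n]
      ext ⟨x, y⟩
      simp only [proj1, tens, Set.mem_inter_iff, Set.mem_ofPred_eq, Set.mem_compl_iff, true_and]
      constructor
      · rintro ⟨h1, y', ⟨⟨m, h2, h3⟩, m', h4, h5⟩, h6⟩
        refine ⟨h1, m, ?_, h3⟩
        by_contra h7
        exact h6 ⟨m, m', by omega, by omega, h3, h5⟩
      · rintro ⟨h1, m, h2, h3⟩
        refine ⟨h1, ((n + 1 : ℕ) : ℝ), ⟨⟨m, by omega, h3⟩, n + 1, by omega, rfl⟩, ?_⟩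
        rintro ⟨m', n', h4, h5, h6, h7⟩
        have h8 : m = m' := by
          have := h3.symm.trans h6
          exact_mod_cast this
        have h9 : n + 1 = n' := by exact_mod_cast h7
        omega
    refine ⟨hA, ?_⟩
    have h : eval (cf (gset W)) (tAB (n + 1)).2 =
      proj2 (tens (proj1 (eval (cf (gset W)) (tAB (n + 1)).1))
        (proj2 (eval (cf (gset W)) (tAB n).2)) ∩ (eval (cf (gset W)) tR)) := rfl
    rw [h, hA, ihB, eval_R, pA (n + 1), pB n]
    ext ⟨x, y⟩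
    simp only [proj2, tens, Set.mem_inter_iff, Set.mem_ofPred_eq, true_and]
    constructor
    · rintro ⟨h1, x', ⟨⟨m, h2, h3⟩, m', h4, h5⟩, m'', n'', h6, h7, h8, h9⟩
      have h10 : m = m'' := by
        have := h3.symm.trans h8
        exact_mod_cast this
      exact ⟨h1, n'', by omega, h9⟩
    · rintro ⟨h1, m, h2, h3⟩
      exact ⟨h1, (m : ℝ), ⟨⟨m, h2, rfl⟩, m, by omega, h3⟩, m, m, by omega, le_rfl, rfl, h3⟩

theorem eval_D (W : Set ℕ) (n : ℕ) : eval (cf (gset W)) (tD n) = ∅ ↔ n ∉ W := by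
  have h : eval (cf (gset W)) (tD n) = (eval (cf (gset W)) (tAB n).1 ∩
    (eval (cf (gset W)) (tAB (n + 1)).1)ᶜ) ∩ gset W := rfl
  rw [h, (eval_AB W n).1, (eval_AB W (n + 1)).1]
  have h2 : ({p : Plane | p.2 = 0 ∧ ∃ m : ℕ, n < m ∧ p.1 = m} ∩
      {p : Plane | p.2 = 0 ∧ ∃ m : ℕ, n + 1 < m ∧ p.1 = m}ᶜ) = {(((n + 1 : ℕ) : ℝ), 0)} := by
    ext ⟨x, y⟩
    simp only [Set.mem_inter_iff, Set.mem_ofPred_eq, Set.mem_compl_iff, Set.mem_singleton_iff,
      Prod.mk.injEq, not_and, not_exists]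
    constructor
    · rintro ⟨⟨h1, m, h2, h3⟩, h4⟩
      have h5 : ¬ n + 1 < m := fun h6 => h4 h1 m h6 h3
      have h6 : m = n + 1 := by omega
      subst h6
      exact ⟨h3, h1⟩
    · rintro ⟨h1, h2⟩
      refine ⟨⟨h2, n + 1, by omega, h1⟩, fun _ m h3 h4 => ?_⟩
      rw [h1] at h4
      have : n + 1 = m := by exact_mod_cast h4
      omega
  rw [h2, Set.singleton_inter_eq_empty, not_iff_not]
  simp only [gset, Set.mem_ofPred_eq]
  constructor
  · rintro (⟨m, n', h3, h4, h5, h6⟩ | ⟨m, h3, h4, -⟩)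
    · have : n' = 0 := by exact_mod_cast h6.symm
      omega
    · have h5 : n + 1 = m + 1 := by exact_mod_cast h4
      have h6 : n = m := by omega
      rwa [h6]
  · intro h3
    exact Or.inr ⟨n, h3, by push_cast; ring, trivial⟩

/-- The generator is determined by its theory. -/
theorem gset_theory {W W' : Set ℕ}
    (h : ∀ t : Term Unit, eval (cf (gset W)) t = ∅ ↔ eval (cf (gset W')) t = ∅) : W = W' := by
  ext n
  have := h (tD n)
  rw [eval_D, eval_D, not_iff_not] at this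
  exact this

end Pool.Agent.Y564.PA
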