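import Mathlib

/-!
# Projective algebras of plane sets

Definitions: the axes, the projections, the direct product, projective algebras, generated
algebras and isomorphisms.
-/

set_option autoImplicit false

namespace Pool.Agent.Y564.PA

/-- The Euclidean plane. -/
abbrev Plane : Type := ℝ × ℝ

/-- The axis `X = {(x, 0)}`. -/
def axisX : Set Plane := {p | p.2 = 0}

/-- The axis `Y = {(0, y)}`. -/
def axisY : Set Plane := {p | p.1 = 0}

/-- The projection of a plane set to the axis `X`. -/
def proj1 (S : Set Plane) : Set Plane := {p | p.2 = 0 ∧ ∃ y : ℝ, (p.1, y) ∈ S}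

/-- The projection of a plane set to the axis `Y`. -/
def proj2 (S : Set Plane) : Set Plane := {p | p.1 = 0 ∧ ∃ x : ℝ, (x, p.2) ∈ S}

/-- The direct product `A ⊗ B = {(x, y) : (x, 0) ∈ A, (0, y) ∈ B}`. -/
def tens (A B : Set Plane) : Set Plane := {p | (p.1, 0) ∈ A ∧ (0, p.2) ∈ B}

/-- A projective algebra of plane sets: a (nonempty) family of plane sets which is closed under
unions, intersections, complements, both projections, and direct products of its members on the
two axes. -/
structure IsProjAlg (F : Set (Set Plane)) : Prop where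
  nonempty : F.Nonempty
  union : ∀ S ∈ F, ∀ T ∈ F, S ∪ T ∈ F
  inter : ∀ S ∈ F, ∀ T ∈ F, S ∩ T ∈ F
  compl : ∀ S ∈ F, Sᶜ ∈ F
  proj1 : ∀ S ∈ F, proj1 S ∈ F
  proj2 : ∀ S ∈ F, proj2 S ∈ F
  tens : ∀ A ∈ F, ∀ B ∈ F, A ⊆ axisX → B ⊆ axisY → tens A B ∈ F

/-- The projective algebra generated by a family of plane sets: the intersection of all projective
algebras which contain it. -/
def gen (𝒮 : Set (Set Plane)) : Set (Set Plane) := ⋂₀ {F | IsProjAlg F ∧ 𝒮 ⊆ F}

/-- Two families of plane sets are isomorphic (as projective algebras): there is a bijection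
between them preserving unions, intersections, complements, both projections, and direct products
of members on the two axes. -/
def Isomorphic (F G : Set (Set Plane)) : Prop :=
  ∃ φ : Set Plane → Set Plane, Set.BijOn φ F G ∧
    (∀ S ∈ F, ∀ T ∈ F, φ (S ∪ T) = φ S ∪ φ T) ∧
    (∀ S ∈ F, ∀ T ∈ F, φ (S ∩ T) = φ S ∩ φ T) ∧
    (∀ S ∈ F, φ Sᶜ = (φ S)ᶜ) ∧
    (∀ S ∈ F, φ (proj1 S) = proj1 (φ S)) ∧
    (∀ S ∈ F, φ (proj2 S) = proj2 (φ S)) ∧
    (∀ A ∈ F, ∀ B ∈ F, A ⊆ axisX → B ⊆ axisY → φ (tens A B) = tens (φ A) (φ B))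

/-- The set of the isomorphism classes of a class `𝒞` of families of plane sets. -/
def isoClasses (𝒞 : Set (Set (Set Plane))) : Set (Set (Set (Set Plane))) :=
  {c | ∃ F ∈ 𝒞, c = {G | G ∈ 𝒞 ∧ Isomorphic F G}}

end Pool.Agent.Y564.PA
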