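import Pool.Agent.Y564.PA.Core

set_option autoImplicit false

namespace Pool.Agent.Y564.PA

open Cardinal

theorem gen_single (S : Set Plane) : gen {S} = Set.range (eval (cf S)) := by
  have h := gen_eq (cf S)
  rwa [Set.range_const] at h

theorem gen_single_isProjAlg (S : Set Plane) : IsProjAlg (gen {S}) :=
  gen_isProjAlg (Set.singleton_nonempty S)

theorem gen_single_countable (S : Set Plane) : (gen {S}).Countable := by
  rw [gen_single]
  exact Set.countable_range _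

/-- The image of the generator under an isomorphism determines the theory. -/
theorem iso_theory {S : Set Plane} {B : Set (Set Plane)} (h : Isomorphic (gen {S}) B) :
    ∃ T ∈ B, ∀ t : Term Unit, eval (cf S) t = ∅ ↔ eval (cf T) t = ∅ := by
  obtain ⟨φ, hφ, h⟩ := h
  have hF := gen_single_isProjAlg S
  have hS : S ∈ gen {S} := subset_gen _ rfl
  refine ⟨φ S, hφ.mapsTo hS, fun t => ?_⟩
  have h0 : φ ∅ = ∅ := iso_empty hF h.2.1 h.2.2.1
  have h1 := iso_eval hF h (S := cf S) (fun _ => hS) t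
  change φ (eval (cf S) t) = eval (cf (φ S)) t at h1
  rw [← h1]
  constructor
  · intro h2
    rw [h2, h0]
  · intro h2
    apply hφ.injOn (eval_mem hF (fun _ => hS) t) (empty_mem hF)
    rw [h2, h0]

theorem no_universal {U : Set (Set Plane)} (hc : #U < 𝔠) :
    ∃ S : Set Plane, ∀ B ⊆ U, ¬ Isomorphic (gen {S}) B := by
  by_contra hcon
  push Not at hcon
  choose B hB hiso using fun W : Set ℕ => hcon (gset W)
  choose T hT hTh using fun W : Set ℕ => iso_theory (hiso W)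
  have hinj : Function.Injective (fun W : Set ℕ => (⟨T W, hB W (hT W)⟩ : U)) := by
    intro W W' h
    have h1 : T W = T W' := congrArg Subtype.val h
    apply gset_theory
    intro t
    rw [hTh W t, hTh W' t, h1]
  have h2 := Cardinal.mk_le_of_injective hinj
  rw [Cardinal.mk_set, Cardinal.mk_nat, Cardinal.two_power_aleph0] at h2
  exact absurd h2 (not_le.2 hc)

theorem iso_refl (F : Set (Set Plane)) : Isomorphic F F :=
  ⟨id, Set.bijOn_id F, fun _ _ _ _ => rfl, fun _ _ _ _ => rfl, fun _ _ => rfl, fun _ _ => rfl,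
    fun _ _ => rfl, fun _ _ _ _ _ _ => rfl⟩

/-- Isomorphisms preserve and reflect the domain of the direct product. -/
theorem iso_axis {F : Set (Set Plane)} {φ : Set Plane → Set Plane}
    (hi : Set.InjOn φ F) (hF : IsProjAlg F)
    (h4 : ∀ S ∈ F, φ (proj1 S) = proj1 (φ S)) (h5 : ∀ S ∈ F, φ (proj2 S) = proj2 (φ S))
    {A : Set Plane} (hA : A ∈ F) :
    (A ⊆ axisX ↔ φ A ⊆ axisX) ∧ (A ⊆ axisY ↔ φ A ⊆ axisY) := by
  constructor
  · constructor
    · intro h
      rw [← proj1_eq h, h4 A hA]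
      exact proj1_sub _
    · intro h
      have h1 := proj1_eq h
      rw [← h4 A hA] at h1
      rw [← hi (hF.proj1 A hA) hA h1]
      exact proj1_sub _
  · constructor
    · intro h
      rw [← proj2_eq h, h5 A hA]
      exact proj2_sub _
    · intro h
      have h1 := proj2_eq h
      rw [← h5 A hA] at h1
      rw [← hi (hF.proj2 A hA) hA h1]
      exact proj2_sub _

theorem iso_symm {F G : Set (Set Plane)} (hF : IsProjAlg F) (h : Isomorphic F G) :
    Isomorphic G F := by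
  obtain ⟨φ, hφ, h1, h2, h3, h4, h5, h6⟩ := h
  obtain ⟨ψ, hψ⟩ : ∃ ψ : Set Plane → Set Plane, Set.InvOn ψ φ F G :=
    ⟨Function.invFunOn φ F, hφ.invOn_invFunOn⟩
  have hψb : Set.BijOn ψ G F := by
    have h7 : Set.MapsTo ψ G F := by
      intro S hS
      obtain ⟨T, hT, rfl⟩ := hφ.surjOn hS
      rw [hψ.1 hT]
      exact hT
    exact ⟨h7, hψ.2.injOn, fun T hT => ⟨φ T, hφ.mapsTo hT, hψ.1 hT⟩⟩
  have key : ∀ S ∈ G, ∃ T ∈ F, φ T = S ∧ ψ S = T := by
    intro S hS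
    obtain ⟨T, hT, rfl⟩ := hφ.surjOn hS
    exact ⟨T, hT, rfl, hψ.1 hT⟩
  refine ⟨ψ, hψb, ?_, ?_, ?_, ?_, ?_, ?_⟩
  · intro S hS S' hS'
    obtain ⟨T, hT, rfl, h7⟩ := key S hS
    obtain ⟨T', hT', rfl, h8⟩ := key S' hS'
    rw [h7, h8, ← h1 T hT T' hT', hψ.1 (hF.union T hT T' hT')]
  · intro S hS S' hS'
    obtain ⟨T, hT, rfl, h7⟩ := key S hS
    obtain ⟨T', hT', rfl, h8⟩ := key S' hS'
    rw [h7, h8, ← h2 T hT T' hT', hψ.1 (hF.inter T hT T' hT')]
  · intro S hS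
    obtain ⟨T, hT, rfl, h7⟩ := key S hS
    rw [h7, ← h3 T hT, hψ.1 (hF.compl T hT)]
  · intro S hS
    obtain ⟨T, hT, rfl, h7⟩ := key S hS
    rw [h7, ← h4 T hT, hψ.1 (hF.proj1 T hT)]
  · intro S hS
    obtain ⟨T, hT, rfl, h7⟩ := key S hS
    rw [h7, ← h5 T hT, hψ.1 (hF.proj2 T hT)]
  · intro A hA B hB h7 h8
    obtain ⟨T, hT, rfl, h9⟩ := key A hA
    obtain ⟨T', hT', rfl, h10⟩ := key B hB
    have h11 := (iso_axis hφ.injOn hF h4 h5 hT).1.2 h7
    have h12 := (iso_axis hφ.injOn hF h4 h5 hT').2.2 h8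
    rw [h9, h10, ← h6 T hT T' hT' h11 h12, hψ.1 (hF.tens T hT T' hT' h11 h12)]

theorem iso_trans {F G H : Set (Set Plane)} (hF : IsProjAlg F) (h : Isomorphic F G)
    (h' : Isomorphic G H) : Isomorphic F H := by
  obtain ⟨φ, hφ, h1, h2, h3, h4, h5, h6⟩ := h
  obtain ⟨φ', hφ', h1', h2', h3', h4', h5', h6'⟩ := h'
  refine ⟨φ' ∘ φ, hφ'.comp hφ, ?_, ?_, ?_, ?_, ?_, ?_⟩
  · intro S hS T hT
    simp only [Function.comp]
    rw [h1 S hS T hT, h1' _ (hφ.mapsTo hS) _ (hφ.mapsTo hT)]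
  · intro S hS T hT
    simp only [Function.comp]
    rw [h2 S hS T hT, h2' _ (hφ.mapsTo hS) _ (hφ.mapsTo hT)]
  · intro S hS
    simp only [Function.comp]
    rw [h3 S hS, h3' _ (hφ.mapsTo hS)]
  · intro S hS
    simp only [Function.comp]
    rw [h4 S hS, h4' _ (hφ.mapsTo hS)]
  · intro S hS
    simp only [Function.comp]
    rw [h5 S hS, h5' _ (hφ.mapsTo hS)]
  · intro A hA B hB h7 h8
    simp only [Function.comp]
    rw [h6 A hA B hB h7 h8, h6' _ (hφ.mapsTo hA) _ (hφ.mapsTo hB)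
      ((iso_axis hφ.injOn hF h4 h5 hA).1.1 h7) ((iso_axis hφ.injOn hF h4 h5 hB).2.1 h8)]

/-- Isomorphism as an equivalence relation on a class of projective algebras. -/
def isoSetoid (𝒞 : Set (Set (Set Plane))) : Setoid {F : Set (Set Plane) // IsProjAlg F ∧ F ∈ 𝒞} where
  r F G := Isomorphic F.1 G.1
  iseqv :=
    { refl := fun F => iso_refl F.1
      symm := fun {F _} h => iso_symm F.2.1 h
      trans := fun {F _ _} h h' => iso_trans F.2.1 h h' }

/-- The theory of a family of generators. -/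
def theory {ι : Type} (S : ι → Set Plane) : Set (Term ι) := {t | eval S t = ∅}

theorem eval_eq_iff {ι : Type} (S : ι → Set Plane) (s t : Term ι) :
    eval S s = eval S t ↔
      Term.union (.inter s (.compl t)) (.inter t (.compl s)) ∈ theory S := by
  change _ ↔ (eval S s ∩ (eval S t)ᶜ) ∪ (eval S t ∩ (eval S s)ᶜ) = ∅
  rw [Set.union_empty_iff]
  constructor
  · intro h
    rw [h]
    simp
  · rintro ⟨h1, h2⟩
    apply Set.Subset.antisymm
    · intro x hx
      by_contra h3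
      exact (Set.mem_empty_iff_false x).1 (h1 ▸ ⟨hx, h3⟩)
    · intro x hx
      by_contra h3
      exact (Set.mem_empty_iff_false x).1 (h2 ▸ ⟨hx, h3⟩)

/-- Families of generators with the same theory generate isomorphic algebras. -/
theorem iso_of_theory {ι : Type} [Nonempty ι] {S S' : ι → Set Plane}
    (h : theory S = theory S') : Isomorphic (gen (Set.range S)) (gen (Set.range S')) := by
  classical
  rw [gen_eq, gen_eq]
  have hker : ∀ s t, eval S s = eval S t ↔ eval S' s = eval S' t := by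
    intro s t
    rw [eval_eq_iff, eval_eq_iff, h]
  obtain ⟨φ, hφ⟩ : ∃ φ : Set Plane → Set Plane, ∀ t, φ (eval S t) = eval S' t := by
    refine ⟨fun A => if hA : ∃ t, eval S t = A then eval S' hA.choose else ∅, fun t => ?_⟩
    have hA : ∃ t', eval S t' = eval S t := ⟨t, rfl⟩
    simp only [dif_pos hA]
    exact (hker _ _).1 hA.choose_spec
  refine ⟨φ, ⟨?_, ?_, ?_⟩, ?_, ?_, ?_, ?_, ?_, ?_⟩
  · rintro _ ⟨t, rfl⟩
    exact ⟨t, (hφ t).symm⟩
  · rintro _ ⟨s, rfl⟩ _ ⟨t, rfl⟩ hst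
    rw [hφ, hφ] at hst
    exact (hker _ _).2 hst
  · rintro _ ⟨t, rfl⟩
    exact ⟨_, ⟨t, rfl⟩, hφ t⟩
  · rintro _ ⟨s, rfl⟩ _ ⟨t, rfl⟩
    rw [hφ, hφ]
    exact hφ (.union s t)
  · rintro _ ⟨s, rfl⟩ _ ⟨t, rfl⟩
    rw [hφ, hφ]
    exact hφ (.inter s t)
  · rintro _ ⟨s, rfl⟩
    rw [hφ]
    exact hφ (.compl s)
  · rintro _ ⟨s, rfl⟩
    rw [hφ]
    exact hφ (.p1 s)
  · rintro _ ⟨s, rfl⟩
    rw [hφ]
    exact hφ (.p2 s)
  · rintro _ ⟨s, rfl⟩ _ ⟨t, rfl⟩ h1 h2
    have h3 : tens (eval S s) (eval S t) = eval S (.tens s t) := by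
      change _ = tens (proj1 (eval S s)) (proj2 (eval S t))
      rw [proj1_eq h1, proj2_eq h2]
    have h4 : eval S' s ⊆ axisX := by
      have : eval S (.p1 s) = eval S s := proj1_eq h1
      rw [← (hker _ _).1 this]
      exact proj1_sub _
    have h5 : eval S' t ⊆ axisY := by
      have : eval S (.p2 t) = eval S t := proj2_eq h2
      rw [← (hker _ _).1 this]
      exact proj2_sub _
    rw [h3, hφ, hφ, hφ]
    change tens (proj1 (eval S' s)) (proj2 (eval S' t)) = _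
    rw [proj1_eq h4, proj2_eq h5]

theorem card_le {k : ℕ} (hk : 1 ≤ k) {𝒞 : Set (Set (Set Plane))}
    (h𝒞 : ∀ F ∈ 𝒞, ∃ S : Fin k → Set Plane, F = gen (Set.range S)) :
    #(Quotient (isoSetoid 𝒞)) ≤ 𝔠 := by
  have : Nonempty (Fin k) := ⟨⟨0, hk⟩⟩
  choose S hS using h𝒞
  have hinj : Function.Injective (fun q : Quotient (isoSetoid 𝒞) =>
      theory (S q.out.1 q.out.2.2)) := by
    intro q q' h
    have h1 := iso_of_theory h
    rw [← hS, ← hS] at h1
    have h2 : Quotient.mk (isoSetoid 𝒞) q.out = Quotient.mk (isoSetoid 𝒞) q'.out :=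
      Quotient.sound h1
    simpa using h2
  refine (Cardinal.mk_le_of_injective hinj).trans ?_
  rw [Cardinal.mk_set, ← Cardinal.two_power_aleph0]
  exact Cardinal.power_le_power_left two_ne_zero (Cardinal.mk_le_aleph0)

theorem card_ge {𝒞 : Set (Set (Set Plane))} (h𝒞 : ∀ W : Set ℕ, gen {gset W} ∈ 𝒞) :
    𝔠 ≤ #(Quotient (isoSetoid 𝒞)) := by
  classical
  let el : Set ℕ → {F : Set (Set Plane) // IsProjAlg F ∧ F ∈ 𝒞} := fun W =>
    ⟨gen {gset W}, gen_single_isProjAlg _, h𝒞 W⟩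
  let q : Set ℕ → Quotient (isoSetoid 𝒞) := fun W => Quotient.mk _ (el W)
  -- representatives
  let rep : Set ℕ → Set ℕ := fun W => (⟨W, rfl⟩ : ∃ W', q W' = q W).choose
  have hrep : ∀ W, q (rep W) = q W := fun W => (⟨W, rfl⟩ : ∃ W', q W' = q W).choose_spec
  have hrep2 : ∀ W W', q W = q W' → rep W = rep W' := by
    intro W W' h
    simp only [rep, h]
  have hiso : ∀ W, Isomorphic (gen {gset W}) (gen {gset (rep W)}) := by
    intro W
    have h1 : q W = q (rep W) := (hrep W).symm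
    exact (Quotient.exact h1 : (isoSetoid 𝒞).r _ _)
  choose T hT hTh using fun W : Set ℕ => iso_theory (hiso W)
  have hT' : ∀ W, ∃ t : Term Unit, eval (cf (gset (rep W))) t = T W := by
    intro W
    have := hT W
    rw [gen_single] at this
    exact this
  choose t ht using hT'
  have hinj : Function.Injective (fun W : Set ℕ => (q W, t W)) := by
    intro W W' h
    simp only [Prod.mk.injEq] at h
    have h1 : T W = T W' := by
      rw [← ht W, ← ht W', hrep2 W W' h.1, h.2]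
    apply gset_theory
    intro s
    rw [hTh W s, hTh W' s, h1]
  have h2 := Cardinal.mk_le_of_injective hinj
  rw [Cardinal.mk_set, Cardinal.mk_nat, Cardinal.two_power_aleph0, Cardinal.mk_prod,
    Cardinal.lift_id, Cardinal.lift_id] at h2
  have h3 : #(Term Unit) ≤ ℵ₀ := Cardinal.mk_le_aleph0
  by_contra hcon
  rw [not_le] at hcon
  have h4 : #(Quotient (isoSetoid 𝒞)) * #(Term Unit) < 𝔠 :=
    Cardinal.mul_lt_of_lt Cardinal.aleph0_le_continuum hcon
      (h3.trans_lt Cardinal.aleph0_lt_continuum)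
  exact absurd h2 (not_le.2 h4)

theorem card_eq {k : ℕ} (hk : 1 ≤ k) {𝒞 : Set (Set (Set Plane))}
    (h1 : ∀ F ∈ 𝒞, ∃ S : Fin k → Set Plane, F = gen (Set.range S))
    (h2 : ∀ W : Set ℕ, gen {gset W} ∈ 𝒞) : #(Quotient (isoSetoid 𝒞)) = 𝔠 :=
  le_antisymm (card_le hk h1) (card_ge h2)

theorem classes_card {𝒞 : Set (Set (Set Plane))} (h : ∀ F ∈ 𝒞, IsProjAlg F) :
    #(isoClasses 𝒞) = #(Quotient (isoSetoid 𝒞)) := by
  symm
  let f : Quotient (isoSetoid 𝒞) → isoClasses 𝒞 := Quotient.lift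
    (fun F => ⟨{G | G ∈ 𝒞 ∧ Isomorphic F.1 G}, F.1, F.2.2, rfl⟩) (by
      intro F F' hFF
      have hFF' : Isomorphic F.1 F'.1 := hFF
      apply Subtype.ext
      ext G
      constructor
      · rintro ⟨h1, h2⟩
        exact ⟨h1, iso_trans F'.2.1 (iso_symm F.2.1 hFF') h2⟩
      · rintro ⟨h1, h2⟩
        exact ⟨h1, iso_trans F.2.1 hFF' h2⟩)
  refine Cardinal.mk_congr (Equiv.ofBijective f ⟨?_, ?_⟩)
  · intro q q'
    refine Quotient.inductionOn₂ q q' fun F F' h1 => ?_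
    have h2 : {G | G ∈ 𝒞 ∧ Isomorphic F.1 G} = {G | G ∈ 𝒞 ∧ Isomorphic F'.1 G} :=
      congrArg Subtype.val h1
    have h3 : F'.1 ∈ {G | G ∈ 𝒞 ∧ Isomorphic F.1 G} := by
      rw [h2]
      exact ⟨F'.2.2, iso_refl _⟩
    exact Quotient.sound h3.2
  · rintro ⟨_, F, hF, rfl⟩
    exact ⟨Quotient.mk _ ⟨F, h F hF, hF⟩, rfl⟩

theorem single_mem {k : ℕ} (hk : 1 ≤ k) (W : Set ℕ) :
    ∃ S : Fin k → Set Plane, gen {gset W} = gen (Set.range S) := by
  have : Nonempty (Fin k) := ⟨⟨0, hk⟩⟩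
  exact ⟨fun _ => gset W, by rw [Set.range_const]⟩

theorem classes_card_eq {k : ℕ} (hk : 1 ≤ k) {𝒞 : Set (Set (Set Plane))}
    (h1 : ∀ F ∈ 𝒞, ∃ S : Fin k → Set Plane, F = gen (Set.range S))
    (h2 : ∀ W : Set ℕ, gen {gset W} ∈ 𝒞) : #(isoClasses 𝒞) = 𝔠 := by
  have : Nonempty (Fin k) := ⟨⟨0, hk⟩⟩
  rw [classes_card, card_eq hk h1 h2]
  intro F hF
  obtain ⟨S, rfl⟩ := h1 F hF
  exact gen_isProjAlg (Set.range_nonempty S)

theorem gen_mono_eq {𝒮 : Set (Set Plane)} {S : Set Plane} (h1 : S ∈ 𝒮) (h2 : 𝒮 ⊆ gen {S}) :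
    gen {S} = gen 𝒮 := by
  apply Set.Subset.antisymm
  · intro A hA F hF
    exact hA F ⟨hF.1, by rw [Set.singleton_subset_iff]; exact hF.2 h1⟩
  · intro A hA
    exact hA _ ⟨gen_single_isProjAlg S, h2⟩

theorem single_mem_inj {k : ℕ} (hk : 1 ≤ k) (W : Set ℕ) :
    ∃ S : Fin k → Set Plane, Function.Injective S ∧ gen {gset W} = gen (Set.range S) := by
  obtain ⟨k, rfl⟩ : ∃ l, k = l + 1 := ⟨k - 1, by omega⟩
  let S : Fin (k + 1) → Set Plane := fun i =>
    if i = 0 then gset W else eval (cf (gset W)) (tAB i.1).1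
  have hne : ∀ n, gset W ≠ eval (cf (gset W)) (tAB n).1 := by
    intro n h
    have h1 : ((1 : ℝ), (1 : ℝ)) ∈ gset W := by
      left
      exact ⟨1, 1, le_rfl, le_rfl, by simp, by simp⟩
    rw [h, (eval_AB W n).1] at h1
    have h2 : (1 : ℝ) = 0 := h1.1
    norm_num at h2
  have hne2 : ∀ n n', eval (cf (gset W)) (tAB n).1 = eval (cf (gset W)) (tAB n').1 → n ≤ n' := by
    intro n n' h
    rw [(eval_AB W n).1, (eval_AB W n').1] at h
    have h1 : (((n' + 1 : ℕ) : ℝ), (0 : ℝ)) ∈ {p : Plane | p.2 = 0 ∧ ∃ m : ℕ, n < m ∧ p.1 = m} := by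
      rw [h]
      exact ⟨rfl, n' + 1, by omega, rfl⟩
    obtain ⟨-, m, h2, h3⟩ := h1
    change ((n' + 1 : ℕ) : ℝ) = (m : ℝ) at h3
    have h4 : n' + 1 = m := by exact_mod_cast h3
    omega
  refine ⟨S, ?_, ?_⟩
  · intro i j hij
    simp only [S] at hij
    split_ifs at hij with h1 h2 h2
    · rw [h1, h2]
    · exact absurd hij (hne _)
    · exact absurd hij.symm (hne _)
    · exact Fin.ext (le_antisymm (hne2 _ _ hij) (hne2 _ _ hij.symm))
  · apply gen_mono_eq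
    · exact ⟨0, by simp [S]⟩
    · rintro _ ⟨i, rfl⟩
      simp only [S]
      split_ifs
      · exact subset_gen _ rfl
      · rw [gen_single]
        exact ⟨_, rfl⟩

end Pool.Agent.Y564.PA
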